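import Pool.Agent.Q182.EN.As
import Pool.Agent.Q270.EN.Stm3

/-!
# Project EN (helper270), job ASA: almost sure version for affine forms

Adaptation of the file of helper182 (job AS).
-/

set_option autoImplicit false

namespace Pool.Agent.Q211.EN

open Finset Filter Topology MeasureTheory Pool.Agent.Q270.EN Pool.Agent.Q182.EN

theorem term_norm' {Ω : Type} [MeasurableSpace Ω] (e : ℕ → Ω → ℝ) (he : Sgn e) (P : Set ℕ)
    (T : Finset (ℕ × ℕ)) (w : ℕ → ℂ) (hw : ∀ n, ‖w n‖ ≤ 1) (ω : Ω) (n : ℕ) :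
    ‖w n * ((∏ q ∈ T, cmf P (fun p => e p ω) (q.1 * n + q.2) : ℝ) : ℂ)‖ ≤ 1 := by
  rw [norm_mul, Complex.norm_real, Real.norm_eq_abs, Finset.abs_prod]
  rw [Finset.prod_eq_one (fun q _ => cmf_abs P (fun p => e p ω) (fun p => he.val p ω)
    (q.1 * n + q.2))]
  rw [mul_one]
  exact hw n

theorem window' (P : Set ℕ) (m : ℕ → ℝ) (A : ℕ) (y : ℕ → ℕ) (hy : Tendsto y atTop atTop) (K : ℝ)
    (hK : 0 < K)
    (hKb : ∀ᶠ N : ℕ in atTop, ∑ p ∈ (pr P (2 * A * N)).filter (y N < ·), 1 / (p : ℝ) ≤ K)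
    (F : ℕ → ℝ) (hF : Summable F) (hFm : ∀ p, p.Prime → p ∈ P → F p = m p ^ 2 / p)
    (δ : ℝ) (hδ : 0 < δ) :
    ∀ᶠ N : ℕ in atTop, ∑ p ∈ (pr P (2 * A * N)).filter (y N < ·), 1 / (p : ℝ) * |m p| ≤ δ := by
  obtain ⟨y0, hy0⟩ := tails F hF (δ ^ 2 / K) (by positivity)
  filter_upwards [hKb, hy.eventually_ge_atTop y0] with N hN hyN
  set S := (pr P (2 * A * N)).filter (y N < ·) with hS
  have hV : ∑ p ∈ S, F p < δ ^ 2 / K := by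
    refine hy0 S (fun p hp => ?_)
    rw [hS, Finset.mem_filter] at hp
    omega
  have hpt : ∀ p ∈ S, 1 / (p : ℝ) * |m p| ≤ δ / K / 2 * (1 / (p : ℝ)) + K / δ / 2 * F p := by
    intro p hp
    have hp' : p.Prime ∧ p ∈ P := by
      rw [hS, Finset.mem_filter] at hp
      have := hp.1
      unfold pr at this
      simp only [Finset.mem_filter] at this
      exact this.2
    rw [hFm p hp'.1 hp'.2]
    have hp0 : (0 : ℝ) < p := by exact_mod_cast hp'.1.pos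
    have h1 : |m p| ≤ δ / K / 2 + K / δ / 2 * m p ^ 2 := by
      have h2 : 0 ≤ (K / δ * |m p| - 1) ^ 2 := sq_nonneg _
      have h3 : δ / K / 2 + K / δ / 2 * m p ^ 2 - |m p| = δ / K / 2 * (K / δ * |m p| - 1) ^ 2 := by
        rw [← sq_abs (m p)]
        field_simp
        ring
      have h4 : 0 ≤ δ / K / 2 * (K / δ * |m p| - 1) ^ 2 := by positivity
      linarith
    have h5 : 1 / (p : ℝ) * |m p| ≤ 1 / (p : ℝ) * (δ / K / 2 + K / δ / 2 * m p ^ 2) :=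
      mul_le_mul_of_nonneg_left h1 (by positivity)
    refine h5.trans (le_of_eq ?_)
    ring
  refine (Finset.sum_le_sum hpt).trans ?_
  rw [Finset.sum_add_distrib, ← Finset.mul_sum, ← Finset.mul_sum]
  have h6 : δ / K / 2 * ∑ p ∈ S, 1 / (p : ℝ) ≤ δ / K / 2 * K :=
    mul_le_mul_of_nonneg_left hN (by positivity)
  have h7 : K / δ / 2 * ∑ p ∈ S, F p ≤ K / δ / 2 * (δ ^ 2 / K) :=
    mul_le_mul_of_nonneg_left hV.le (by positivity)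
  have h8 : δ / K / 2 * K = δ / 2 := by field_simp
  have h9 : K / δ / 2 * (δ ^ 2 / K) = δ / 2 := by field_simp
  linarith

theorem adm_mono {A B B' : ℕ} {T : Finset (ℕ × ℕ)} (h : Adm A B T) (hB : B ≤ B') : Adm A B' T :=
  ⟨h.1, fun q hq => ⟨(h.2.1 q hq).1, (h.2.1 q hq).2.1, (h.2.1 q hq).2.2.trans hB⟩, h.2.2⟩

/-- the sum along a geometric sequence -/
theorem geom' {Ω : Type} [MeasurableSpace Ω] (μ : Measure Ω) [IsProbabilityMeasure μ]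
    (e : ℕ → Ω → ℝ) (P : Set ℕ) (m : ℕ → Ω → ℝ)
    (hcore : ∀ (A N y : ℕ) (T : Finset (ℕ × ℕ)) (w : ℕ → ℂ), 1 ≤ y → A ≤ y → Adm A (A * N) T →
      (∀ n, ‖w n‖ ≤ 1) → ∃ Z : Ω → ℝ, Measurable Z ∧ (∀ ω, 0 ≤ Z ω) ∧ (∃ B : ℝ, ∀ ω, Z ω ≤ B) ∧
        ∫ ω, Z ω ^ 2 ∂μ ≤ (3 * A * T.card * N) ^ 2 / y ∧
        ∀ ω, ‖∑ n ∈ Icc 1 N, w n *
            ((∏ q ∈ T, cmf P (fun p => e p ω) (q.1 * n + q.2) : ℝ) : ℂ)‖ ≤
          (((Icc 1 N).filter fun n : ℕ => ∀ p ∈ pr P (2 * A * N), y < p →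
            Even ((∏ q ∈ T, (q.1 * n + q.2)).factorization p)).card : ℕ) + Z ω +
          3 * A * T.card * N * ∑ p ∈ (pr P (2 * A * N)).filter (y < ·), 1 / (p : ℝ) * |m p ω|)
    (hW : S_WINA)
    (hP : Tendsto (fun N : ℕ => ∑ p ∈ (pr P N).filter (⌈(Real.log N) ^ 2⌉₊ < ·), 1 / (p : ℝ))
      atTop atTop)
    (F : ℕ → Ω → ℝ) (hF : ∀ᵐ ω ∂μ, Summable fun p => F p ω)
    (hFm : ∀ p, p.Prime → p ∈ P → ∀ ω, F p ω = m p ω ^ 2 / p)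
    (A : ℕ) (T : Finset (ℕ × ℕ)) (w : ℕ → ℂ) (hT : Adm A A T) (hw : ∀ n, ‖w n‖ ≤ 1)
    (θ ε : ℝ) (hθ : 1 < θ) (hε : 0 < ε) :
    ∀ᵐ ω ∂μ, ∀ᶠ i : ℕ in atTop,
      ‖∑ n ∈ Icc 1 ⌊θ ^ i⌋₊, w n *
        ((∏ q ∈ T, cmf P (fun p => e p ω) (q.1 * n + q.2) : ℝ) : ℂ)‖ ≤
        (2 + 3 * A * T.card) * ε * (⌊θ ^ i⌋₊ : ℝ) := by
  have hA : 1 ≤ A := by
    obtain ⟨q, hq⟩ := hT.1
    exact (hT.2.1 q hq).1.trans (hT.2.1 q hq).2.1
  obtain ⟨K, y, hK, hy, hy1, hKb, hcnt⟩ :=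
    hW P (fun N => ⌈(Real.log N) ^ 2⌉₊) hP A T.card ε hA hε
  -- the exceptional variables
  have hZ : ∀ N : ℕ, ∃ Z : Ω → ℝ, Measurable Z ∧ (∀ ω, 0 ≤ Z ω) ∧ (∃ B : ℝ, ∀ ω, Z ω ≤ B) ∧
      (1 ≤ y N → A ≤ y N → Adm A (A * N) T → ∫ ω, Z ω ^ 2 ∂μ ≤ (3 * A * T.card * N) ^ 2 / y N ∧
        ∀ ω, ‖∑ n ∈ Icc 1 N, w n *
            ((∏ q ∈ T, cmf P (fun p => e p ω) (q.1 * n + q.2) : ℝ) : ℂ)‖ ≤
          (((Icc 1 N).filter fun n : ℕ => ∀ p ∈ pr P (2 * A * N), y N < p →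
            Even ((∏ q ∈ T, (q.1 * n + q.2)).factorization p)).card : ℕ) + Z ω +
          3 * A * T.card * N *
            ∑ p ∈ (pr P (2 * A * N)).filter (y N < ·), 1 / (p : ℝ) * |m p ω|) := by
    intro N
    by_cases h : 1 ≤ y N ∧ A ≤ y N ∧ Adm A (A * N) T
    · obtain ⟨Z, h1, h2, h3, h4, h5⟩ := hcore A N (y N) T w h.1 h.2.1 h.2.2 hw
      exact ⟨Z, h1, h2, h3, fun _ _ _ => ⟨h4, h5⟩⟩
    · refine ⟨fun _ => 0, measurable_const, fun _ => le_rfl, ⟨0, fun _ => le_rfl⟩,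
        fun h1 h2 h3 => ?_⟩
      exact absurd ⟨h1, h2, h3⟩ h
  choose Z hZm hZ0 hZb hZc using hZ
  choose Bd hBd using hZb
  have hfl := floor_atTop θ hθ
  have hTN : ∀ N : ℕ, 1 ≤ N → Adm A (A * N) T := fun N hN => adm_mono hT (Nat.le_mul_of_pos_right A hN)
  have hyA : ∀ᶠ N : ℕ in atTop, A ≤ y N := hy.eventually_ge_atTop A
  -- summability of second moments
  set f : ℕ → Ω → ℝ := fun i ω => (Z ⌊θ ^ i⌋₊ ω / (⌊θ ^ i⌋₊ : ℝ)) ^ 2 with hf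
  have hfm : ∀ i, Measurable (f i) := fun i => ((hZm _).div_const _).pow_const 2
  have hf0 : ∀ i ω, 0 ≤ f i ω := fun i ω => sq_nonneg _
  have hfi : ∀ i, Integrable (f i) μ := by
    intro i
    have hN : (0 : ℝ) < (⌊θ ^ i⌋₊ : ℝ) := by exact_mod_cast floor_pos θ hθ i
    refine Integrable.of_bound (hfm i).aestronglyMeasurable
      ((Bd ⌊θ ^ i⌋₊ / (⌊θ ^ i⌋₊ : ℝ)) ^ 2) (Eventually.of_forall fun ω => ?_)
    rw [Real.norm_of_nonneg (hf0 i ω)]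
    have h1 : 0 ≤ Z ⌊θ ^ i⌋₊ ω / (⌊θ ^ i⌋₊ : ℝ) := div_nonneg (hZ0 _ ω) hN.le
    exact pow_le_pow_left₀ h1 (div_le_div_of_nonneg_right (hBd _ ω) hN.le) 2
  have hfs : Summable fun i => ∫ ω, f i ω ∂μ := by
    have hl : 0 < Real.log θ := Real.log_pos hθ
    have hg : Summable fun i : ℕ =>
        (3 * (A : ℝ) * (T.card : ℝ)) ^ 2 / (Real.log θ / 2) ^ 2 * (1 / (i : ℝ) ^ 2) :=
      (Real.summable_one_div_nat_pow.mpr (by norm_num)).mul_left _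
    refine Summable.of_norm_bounded_eventually_nat hg ?_
    filter_upwards [hfl.eventually hy1, hfl.eventually hyA, log_floor θ hθ, eventually_ge_atTop 1]
      with i h1 h2 h3 h4
    have hN : (0 : ℝ) < (⌊θ ^ i⌋₊ : ℝ) := by exact_mod_cast floor_pos θ hθ i
    rw [Real.norm_of_nonneg (integral_nonneg (hf0 i))]
    have h5 := (hZc _ h1.2.1 h2 (hTN _ (floor_pos θ hθ i))).1
    have h6 : ∫ ω, f i ω ∂μ = (∫ ω, Z ⌊θ ^ i⌋₊ ω ^ 2 ∂μ) / (⌊θ ^ i⌋₊ : ℝ) ^ 2 := by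
      rw [← integral_div]
      refine integral_congr_ae (Eventually.of_forall fun ω => ?_)
      simp only [hf, div_pow]
    rw [h6]
    have hi : (0 : ℝ) < (i : ℝ) := by exact_mod_cast h4
    have h7 : ((i : ℝ) * (Real.log θ / 2)) ^ 2 ≤ (y ⌊θ ^ i⌋₊ : ℝ) := by
      have h8 : ((i : ℝ) * (Real.log θ / 2)) ^ 2 ≤ (Real.log (⌊θ ^ i⌋₊ : ℝ)) ^ 2 :=
        pow_le_pow_left₀ (by positivity) h3 2
      have h9 : (Real.log (⌊θ ^ i⌋₊ : ℝ)) ^ 2 ≤ (⌈(Real.log (⌊θ ^ i⌋₊ : ℝ)) ^ 2⌉₊ : ℝ) :=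
        Nat.le_ceil _
      have h10 : (⌈(Real.log (⌊θ ^ i⌋₊ : ℝ)) ^ 2⌉₊ : ℝ) ≤ (y ⌊θ ^ i⌋₊ : ℝ) := by
        exact_mod_cast h1.1
      linarith
    have h8 : (0 : ℝ) < ((i : ℝ) * (Real.log θ / 2)) ^ 2 := by positivity
    rw [div_le_iff₀ (by positivity)]
    refine h5.trans ?_
    have h9 : (3 * (A : ℝ) * (T.card : ℝ) * (⌊θ ^ i⌋₊ : ℝ)) ^ 2 / (y ⌊θ ^ i⌋₊ : ℝ) ≤
        (3 * (A : ℝ) * (T.card : ℝ) * (⌊θ ^ i⌋₊ : ℝ)) ^ 2 / ((i : ℝ) * (Real.log θ / 2)) ^ 2 :=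
      div_le_div_of_nonneg_left (by positivity) h8 h7
    refine h9.trans (le_of_eq ?_)
    field_simp
  have hae := ae_summable μ f hfm hf0 hfi hfs
  filter_upwards [hae, hF] with ω h1 h2
  have hz : ∀ᶠ i : ℕ in atTop, Z ⌊θ ^ i⌋₊ ω ≤ ε * (⌊θ ^ i⌋₊ : ℝ) := by
    have h3 := h1.tendsto_atTop_zero
    have h4 : ∀ᶠ i : ℕ in atTop, f i ω < ε ^ 2 := h3.eventually_lt_const (by positivity)
    filter_upwards [h4] with i hi
    have hN : (0 : ℝ) < (⌊θ ^ i⌋₊ : ℝ) := by exact_mod_cast floor_pos θ hθ i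
    have h5 : Z ⌊θ ^ i⌋₊ ω / (⌊θ ^ i⌋₊ : ℝ) < ε := lt_of_pow_lt_pow_left₀ 2 hε.le hi
    exact ((div_lt_iff₀ hN).mp h5).le
  have hwd := window' P (fun p => m p ω) A y hy K hK hKb (fun p => F p ω) h2
    (fun p hp hpP => hFm p hp hpP ω) ε hε
  filter_upwards [hz, hfl.eventually hwd, hfl.eventually hcnt, hfl.eventually hy1,
    hfl.eventually hyA] with i g1 g2 g3 g4 g5
  have hAd := hTN _ (floor_pos θ hθ i)
  have g6 := (hZc _ g4.2.1 g5 hAd).2 ω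
  have g7 := g3 T hAd le_rfl (Or.inr (Nat.le_ceil _))
  have hN : (0 : ℝ) ≤ (⌊θ ^ i⌋₊ : ℝ) := Nat.cast_nonneg _
  have g8 : 3 * (A : ℝ) * (T.card : ℝ) * (⌊θ ^ i⌋₊ : ℝ) *
      ∑ p ∈ (pr P (2 * A * ⌊θ ^ i⌋₊)).filter (y ⌊θ ^ i⌋₊ < ·), 1 / (p : ℝ) * |m p ω| ≤
      3 * (A : ℝ) * (T.card : ℝ) * (⌊θ ^ i⌋₊ : ℝ) * ε := mul_le_mul_of_nonneg_left g2 (by positivity)
  have g9 : (2 + 3 * (A : ℝ) * (T.card : ℝ)) * ε * (⌊θ ^ i⌋₊ : ℝ) =
      ε * (⌊θ ^ i⌋₊ : ℝ) + ε * (⌊θ ^ i⌋₊ : ℝ) +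
        3 * (A : ℝ) * (T.card : ℝ) * (⌊θ ^ i⌋₊ : ℝ) * ε := by ring
  linarith

theorem t_ASA : S_COREA → S_WINA → S_ASA := by
  classical
  intro hC hW Ω _ μ _ e he P hP hdd A T w hT hw
  obtain ⟨m, hmm, hm1, hdd0, hm2, hcore⟩ := hC Ω μ e he P
  set F : ℕ → Ω → ℝ := fun p ω => if p.Prime ∧ p ∈ P then m p ω ^ 2 / p else 0 with hF
  have hFmeas : ∀ p, Measurable (F p) := by
    intro p
    by_cases h : p.Prime ∧ p ∈ P
    · simp only [hF, if_pos h]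
      exact ((hmm p).pow_const 2).div_const _
    · simp only [hF, if_neg h]
      exact measurable_const
  have hF0 : ∀ p ω, 0 ≤ F p ω := by
    intro p ω
    simp only [hF]
    split_ifs
    · positivity
    · exact le_rfl
  have hF1 : ∀ p ω, F p ω ≤ 1 := by
    intro p ω
    simp only [hF]
    split_ifs with h
    · have hp : (1 : ℝ) ≤ p := by exact_mod_cast h.1.one_lt.le
      have h1 : m p ω ^ 2 ≤ 1 := by
        rw [← sq_abs]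
        exact pow_le_one₀ (abs_nonneg _) (hm1 p ω)
      rw [div_le_one (by linarith)]
      linarith
    · norm_num
  have hFi : ∀ p, Integrable (F p) μ := fun p =>
    Integrable.of_bound (hFmeas p).aestronglyMeasurable 1 (Eventually.of_forall fun ω => by
      rw [Real.norm_of_nonneg (hF0 p ω)]; exact hF1 p ω)
  have hFs : Summable fun p => ∫ ω, F p ω ∂μ := by
    have h1 : Summable (Set.indicator {p : ℕ | p.Prime ∧ p ∈ P}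
        fun p => dd μ e (pr P p) p / (p : ℝ)) := by
      rw [← summable_subtype_iff_indicator]
      exact hdd
    refine Summable.of_nonneg_of_le (fun p => integral_nonneg (hF0 p)) (fun p => ?_) (h1.mul_left 2)
    by_cases h : p.Prime ∧ p ∈ P
    · rw [Set.indicator_of_mem (show p ∈ {p : ℕ | p.Prime ∧ p ∈ P} from h)]
      have h2 : ∫ ω, F p ω ∂μ = (∫ ω, m p ω ^ 2 ∂μ) / p := by
        rw [← integral_div]
        refine integral_congr_ae (Eventually.of_forall fun ω => ?_)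
        simp only [hF, if_pos h]
      rw [h2, ← mul_div_assoc]
      have hp : (0 : ℝ) < p := by exact_mod_cast h.1.pos
      exact div_le_div_of_nonneg_right (hm2 p h.1 h.2) hp.le
    · rw [Set.indicator_of_notMem (show p ∉ {p : ℕ | p.Prime ∧ p ∈ P} from h)]
      have h2 : ∫ ω, F p ω ∂μ = 0 := by
        simp only [hF, if_neg h, integral_zero]
      rw [h2, mul_zero]
  have hae := ae_summable μ F hFmeas hF0 hFi hFs
  have hall : ∀ᵐ ω ∂μ, ∀ r s : ℕ, ∀ᶠ i : ℕ in atTop,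
      ‖∑ n ∈ Icc 1 ⌊(1 + 1 / ((s : ℝ) + 1)) ^ i⌋₊,
        w n * ((∏ q ∈ T, cmf P (fun p => e p ω) (q.1 * n + q.2) : ℝ) : ℂ)‖ ≤
        (2 + 3 * A * T.card) * (1 / ((r : ℝ) + 1)) *
          (⌊(1 + 1 / ((s : ℝ) + 1)) ^ i⌋₊ : ℝ) := by
    rw [ae_all_iff]
    intro r
    rw [ae_all_iff]
    intro s
    have hs : 0 < 1 / ((s : ℝ) + 1) := by positivity
    exact geom' μ e P m hcore hW hP F hae
      (fun p hp hpP ω => by simp only [hF, if_pos (And.intro hp hpP)])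
      A T w hT hw (1 + 1 / ((s : ℝ) + 1)) (1 / ((r : ℝ) + 1)) (by linarith) (by positivity)
  filter_upwards [hall] with ω hω
  exact interp _ (fun n => term_norm' e he P T w hw ω n) _ hω

end Pool.Agent.Q211.EN
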