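import Pool.Agent.Q262.LK.NRM
import Pool.Agent.Q283.EN.Stm

/-!
# Project EN (helper283), job NRM2: local norms, any prime `p` (the proof is that of helper262)
-/

set_option autoImplicit false

namespace Pool.Agent.Q211.EN

open Polynomial
open NumberField IsDedekindDomain Filter Topology Finset
open Pool.Agent.Q7.LK Pool.Agent.Q262.LK Pool.Agent.Q283.EN

/-- `LK.S_NRM` for every prime -/
theorem nrmAll : S_BAS → ∀ (p : ℕ) [Fact p.Prime] (F : Type) [Field F] [NumberField F] (ζ : F), P_NRM p F ζ := by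
  intro BAS p hpF F _ _ ζ t ht v D hD hnL a ha hs
  obtain ⟨s, hs⟩ := hs
  have hp : p.Prime := hpF.out
  obtain ⟨b1, b2, b3, b4, b5, b6, b7⟩ := BAS p F v
  have hirr : Irreducible (X ^ p - C D : F[X]) := by
    refine X_pow_sub_C_irreducible_of_prime hp ?_
    intro b hb
    apply hnL
    rw [← hb]
    refine b3 b ?_
    rintro rfl
    rw [zero_pow hp.ne_zero] at hb
    exact hD hb.symm
  have : Fact (Irreducible (X ^ p - C D : F[X])) := ⟨hirr⟩
  have hfin : FiniteDimensional F (AdjoinRoot (X ^ p - C D : F[X])) :=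
    Module.Finite.of_basis (bs p hp.ne_zero D)
  have : CharZero (AdjoinRoot (X ^ p - C D : F[X])) := charZero_of_injective_algebraMap
    (algebraMap F (AdjoinRoot (X ^ p - C D : F[X]))).injective
  have : FiniteDimensional ℚ (AdjoinRoot (X ^ p - C D : F[X])) := FiniteDimensional.trans ℚ F _
  have : NumberField (AdjoinRoot (X ^ p - C D : F[X])) := { }
  have hK : Kum p F (AdjoinRoot (X ^ p - C D : F[X])) D :=
    { deg := by
        rw [Module.finrank_eq_card_basis (bs p hp.ne_zero D), Fintype.card_fin]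
      root := ⟨AdjoinRoot.root _, root_pow p D⟩ }
  obtain ⟨x, hx⟩ := exists_el p hp.ne_zero (D : v.adicCompletion F) s
  rw [hx, norm_el p hp.ne_zero] at hs
  have hp0 : (p : F) ≠ 0 := Nat.cast_ne_zero.2 hp.ne_zero
  have hva : v.valuation F a ≠ 0 := (v.valuation F).ne_zero_iff.2 ha
  have hU : {z : v.adicCompletion F | Valued.v (z - (a : v.adicCompletion F)) <
      Valued.v (((p : F) ^ 2 * a : F) : v.adicCompletion F)} ∈ 𝓝 (a : v.adicCompletion F) := by
    rw [Valued.mem_nhds]
    refine ⟨Units.mk0 (Valued.v.restrict (((p : F) ^ 2 * a : F) : v.adicCompletion F)) ?_, fun y hy => ?_⟩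
    · rw [Ne, Valuation.restrict_eq_zero_iff, HeightOneSpectrum.valuedAdicCompletion_eq_valuation',
        (v.valuation F).zero_iff]
      exact mul_ne_zero (pow_ne_zero _ hp0) ha
    · exact (Valuation.restrict_lt_iff _).1 hy
  have hV := (cont_Nf p (D : v.adicCompletion F)).continuousAt (x := x)
  rw [ContinuousAt, hs] at hV
  have hW := hV hU
  have hdense : DenseRange (Pi.map (fun _ : Fin p => algebraMap F (v.adicCompletion F))) :=
    DenseRange.piMap fun _ => HeightOneSpectrum.denseRange_algebraMap F v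
  obtain ⟨y, hy⟩ := hdense.mem_nhds hW
  have e1 : Nf p (D : v.adicCompletion F) (Pi.map (fun _ : Fin p => algebraMap F (v.adicCompletion F)) y) =
      ((Nf p D y : F) : v.adicCompletion F) :=
    (map_Nf (algebraMap F (v.adicCompletion F)) p D y).symm
  have hy2 : Valued.v (Nf p (D : v.adicCompletion F)
      (Pi.map (fun _ : Fin p => algebraMap F (v.adicCompletion F)) y) - (a : v.adicCompletion F)) <
      Valued.v (((p : F) ^ 2 * a : F) : v.adicCompletion F) := hy
  rw [e1] at hy2
  have e2 : ((Nf p D y : F) : v.adicCompletion F) - (a : v.adicCompletion F) =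
      ((Nf p D y - a : F) : v.adicCompletion F) :=
    (map_sub (algebraMap F (v.adicCompletion F)) _ _).symm
  rw [e2, HeightOneSpectrum.valuedAdicCompletion_eq_valuation',
    HeightOneSpectrum.valuedAdicCompletion_eq_valuation'] at hy2
  rw [← norm_el p hp.ne_zero D y] at hy2
  have h3 : v.valuation F (Algebra.norm F (el p D y) / a * 1 ^ p - 1) < v.valuation F ((p : F) ^ 2) := by
    have e3 : Algebra.norm F (el p D y) - a = (Algebra.norm F (el p D y) / a * 1 ^ p - 1) * a := by
      rw [one_pow, mul_one, sub_mul, one_mul, div_mul_cancel₀ _ ha]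
    rw [e3, map_mul, map_mul] at hy2
    exact lt_of_mul_lt_mul_right' hy2
  have h4 := b6 _ _ h3
  have h5 : Algebra.norm F (el p D y) ≠ 0 := by
    intro h
    apply (b1 _ h4).1
    rw [h, zero_div]
  have h6 : el p D y ≠ 0 := by
    intro h
    rw [h, Algebra.norm_zero] at h5
    exact h5 rfl
  have h7 := ht.nrm D hD _ hK _ h6 v
  have h8 := ht.pow v _ D h4 hD
  have h9 := ht.mul v (Algebra.norm F (el p D y) / a) a D (b1 _ h4).1 ha hD
  rw [div_mul_cancel₀ _ ha, h7, h8, zero_add] at h9
  exact h9.symm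

/-- `S_NRM2` -/
theorem nrm2 : S_BAS → S_NRM2 := fun BAS F _ _ _ ζ _ _ => nrmAll BAS 2 F ζ

end Pool.Agent.Q211.EN
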