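import Pool.Agent.Q14.LK.Bas
import Pool.Agent.Q283.EN.Stm

/-!
# Project EN (helper283), job SPN: spanning symbols
-/

set_option autoImplicit false

namespace Pool.Agent.Q211.EN

open NumberField IsDedekindDomain Filter Topology Finset
open Pool.Agent.Q283.LQ (Sm Box Nest nS)
open Pool.Agent.Q7.LK Pool.Agent.Q14.LK Pool.Agent.Q283.EN

theorem spn : S_BAS → S_SPN := by
  intro hB p _ F _ _ ζ hζ y f u r π g hb k q hq hqS τ hτ hspan b hb0
  obtain ⟨x, hx, -⟩ := hb.cls b hb0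
  have hmem : x.1 ∈ Submodule.span (ZMod p) (Set.range τ.1) := by
    rw [hspan]
    exact Submodule.mem_top
  obtain ⟨Y, hY⟩ := (Submodule.mem_span_range_iff_exists_fun (ZMod p)).1 hmem
  have hπ0 : ∀ j, π (q j) ≠ 0 := fun j => (hb.po (q j) (hqS j)).1
  have hP0 : (∏ j, π (q j) ^ (Y j).val) ≠ 0 := prod_ne_zero_iff.2 fun j _ => pow_ne_zero _ (hπ0 j)
  have hm0 : mon u x.2 ≠ 0 := mon_ne hb.ue x.2
  have hr0 : mon r x.1 ≠ 0 := mon_ne hb.re x.1
  refine ⟨(∏ j, π (q j) ^ (Y j).val) / mon u x.2, div_ne_zero hP0 hm0, ?_, ?_⟩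
  · intro v hv hvq
    rw [vl_div hB v hP0 hm0, vl_mon hB hb.ue v (fun l => hb.uo l v hv), sub_zero,
      vl_prod hB v _ _ fun j _ => pow_ne_zero _ (hπ0 j)]
    refine sum_eq_zero fun j _ => ?_
    rw [vl_pow hB v (hπ0 j), (hb.po (q j) (hqS j)).2 v hv, if_neg (fun h => hvq j h.symm), mul_zero]
  · intro v hv
    -- the symbols
    have hsy : ∀ j, (fun l => sy p ζ (q j) (u l)) = τ.1 j := fun j => funext fun l => hτ.1 j l
    have h1 : Nn p y (∏ j, (π (q j) * mon r (τ.1 j)) ^ (Y j).val) := by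
      refine nn_prod hB _ _ fun j _ => nn_npow hB ?_ _
      rw [← hsy j]
      exact hb.pc (q j) (hqS j)
    have h2 : ∃ s : F, s ≠ 0 ∧ ∏ j, (mon r (τ.1 j)) ^ (Y j).val = mon r x.1 * s ^ p := by
      choose s hs hs2 using fun j => mon_smul (p := p) hb.re (Y j) (τ.1 j)
      obtain ⟨s', hs', hs3⟩ := mon_sum (p := p) hb.re univ (fun j => Y j • τ.1 j)
      refine ⟨s' * ∏ j, s j, mul_ne_zero hs' (prod_ne_zero_iff.2 fun j _ => hs j), ?_⟩
      rw [prod_congr rfl fun j _ => hs2 j, prod_mul_distrib, hs3, hY, mul_pow, ← prod_pow, mul_assoc]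
    obtain ⟨s, hs, hs2⟩ := h2
    have h3 : Nn p y ((∏ j, π (q j) ^ (Y j).val) * mon r x.1) := by
      refine nn_of_mul_pp hB hs ?_
      rw [mul_assoc, ← hs2, ← prod_mul_distrib]
      simp only [← mul_pow]
      exact h1
    have h4 := nn_div hB h3 hx
    have h5 : (∏ j, π (q j) ^ (Y j).val) * mon r x.1 / (b * mon r x.1 * mon u x.2) =
        (∏ j, π (q j) ^ (Y j).val) / mon u x.2 / b := by
      field_simp
    rw [h5] at h4
    exact h4.2 v hv

end Pool.Agent.Q211.EN
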